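import Pool.Agent.H586.AF.C

/-!
# Project AF, task AF-EB: bounds of the lattice energy
-/

set_option autoImplicit false
set_option linter.unusedVariables false

open MeasureTheory Matrix Finset Filter Topology
open scoped Quaternion

namespace Pool.Agent.H181.AF

open Pool.Agent.H586.AF

theorem pe_eq {a b c d : ℍ[ℝ]} (ha : ‖a‖ = 1) (hb : ‖b‖ = 1) (hc : ‖c‖ = 1) (hd : ‖d‖ = 1) :
    pe a b c d = ‖a * b - d * c‖ ^ 2 := by
  rw [norm_sub_sq_real, Quaternion.inner_def, norm_mul, norm_mul, ha, hb, hc, hd, star_mul, ← mul_assoc]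
  unfold pe
  ring

theorem pe_nonneg {a b c d : ℍ[ℝ]} (ha : ‖a‖ = 1) (hb : ‖b‖ = 1) (hc : ‖c‖ = 1) (hd : ‖d‖ = 1) :
    0 ≤ pe a b c d := by
  rw [pe_eq ha hb hc hd]
  positivity

theorem pe_le {a b c d : ℍ[ℝ]} (ha : ‖a‖ = 1) (hb : ‖b‖ = 1) (hc : ‖c‖ = 1) (hd : ‖d‖ = 1) {s : ℝ}
    (ha1 : ‖a - 1‖ ≤ s) (hb1 : ‖b - 1‖ ≤ s) (hc1 : ‖c - 1‖ ≤ s) (hd1 : ‖d - 1‖ ≤ s) :
    pe a b c d ≤ 16 * s ^ 2 := by
  rw [pe_eq ha hb hc hd]
  have e : a * b - d * c = ((a - 1) * b + (b - 1)) - ((d - 1) * c + (c - 1)) := by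
    rw [sub_mul, sub_mul, one_mul, one_mul]
    abel
  have h1 : ‖(a - 1) * b + (b - 1)‖ ≤ s + s := by
    refine (norm_add_le _ _).trans (add_le_add ?_ hb1)
    rw [norm_mul, hb, mul_one]
    exact ha1
  have h2 : ‖(d - 1) * c + (c - 1)‖ ≤ s + s := by
    refine (norm_add_le _ _).trans (add_le_add ?_ hc1)
    rw [norm_mul, hc, mul_one]
    exact hd1
  have h3 : ‖a * b - d * c‖ ≤ 4 * s := by
    rw [e]
    refine (norm_sub_le _ _).trans ?_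
    linarith
  calc ‖a * b - d * c‖ ^ 2 ≤ (4 * s) ^ 2 := pow_le_pow_left₀ (norm_nonneg _) h3 2
    _ = 16 * s ^ 2 := by ring

theorem pe_vert {a c : ℍ[ℝ]} (ha : ‖a‖ = 1) (hc : ‖c‖ = 1) : pe a 1 c 1 = ‖c - a‖ ^ 2 := by
  rw [pe_eq ha norm_one hc norm_one, mul_one, one_mul, norm_sub_rev]

theorem bg_zero (x : ℝ) : bg 0 x = 1 := by
  unfold bg
  ext <;> simp

/-! ### the extended fields -/

/-- the extended fields in `SU` -/
theorem ex1_norm (L : ℕ) (u : I1 L → SU) (x y z h : ℕ) : ‖ex1 L (fun i => (u i : ℍ[ℝ])) 1 x y z h‖ = 1 := by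
  unfold ex1
  split_ifs
  · exact mem_sphere_zero_iff_norm.1 (u _).2
  · exact norm_one

theorem ex2_norm (L : ℕ) (u : I2 L → SU) (x y z h : ℕ) : ‖ex2 L (fun i => (u i : ℍ[ℝ])) 1 x y z h‖ = 1 := by
  unfold ex2
  split_ifs
  · exact mem_sphere_zero_iff_norm.1 (u _).2
  · exact norm_one

theorem ex3_norm (L : ℕ) (u : I3 L → SU) (x y z h : ℕ) : ‖ex3 L (fun i => (u i : ℍ[ℝ])) 1 x y z h‖ = 1 := by
  unfold ex3
  split_ifs
  · exact mem_sphere_zero_iff_norm.1 (u _).2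
  · exact norm_one

theorem sz_nonneg {L : ℕ} (σ : IH L → SU) : 0 ≤ sz σ := Finset.sum_nonneg fun _ _ => norm_nonneg _

theorem le_sz {L : ℕ} (σ : IH L → SU) (l : IH L) : ‖(σ l : ℍ[ℝ]) - 1‖ ≤ sz σ :=
  Finset.single_le_sum (f := fun l => ‖(σ l : ℍ[ℝ]) - 1‖) (fun _ _ => norm_nonneg _) (mem_univ l)

theorem ex1_sz {L : ℕ} (σ : IH L → SU) (x y z h : ℕ) :
    ‖ex1 L (fun i => (σ (Sum.inl i) : ℍ[ℝ])) 1 x y z h - 1‖ ≤ sz σ := by
  unfold ex1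
  split_ifs
  · exact le_sz σ _
  · rw [sub_self, norm_zero]
    exact sz_nonneg σ

theorem ex2_sz {L : ℕ} (σ : IH L → SU) (x y z h : ℕ) :
    ‖ex2 L (fun i => (σ (Sum.inr (Sum.inl i)) : ℍ[ℝ])) 1 x y z h - 1‖ ≤ sz σ := by
  unfold ex2
  split_ifs
  · exact le_sz σ _
  · rw [sub_self, norm_zero]
    exact sz_nonneg σ

theorem ex3_sz {L : ℕ} (σ : IH L → SU) (x y z h : ℕ) :
    ‖ex3 L (fun i => (σ (Sum.inr (Sum.inr i)) : ℍ[ℝ])) 1 x y z h - 1‖ ≤ sz σ := by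
  unfold ex3
  split_ifs
  · exact le_sz σ _
  · rw [sub_self, norm_zero]
    exact sz_nonneg σ

/-- the energy at `θ = 0` -/
theorem en_zero (L : ℕ) (σ : IH L → SU) : en L 0 σ =
    wil L (ex1 L (fun i => (σ (Sum.inl i) : ℍ[ℝ])) 1) (ex2 L (fun i => (σ (Sum.inr (Sum.inl i)) : ℍ[ℝ])) 1)
      (ex3 L (fun i => (σ (Sum.inr (Sum.inr i)) : ℍ[ℝ])) 1) (fun _ _ _ _ => 1) := by
  unfold en
  simp only [bg_zero, one_mul, mul_one]

/-! ### sums over plaquettes -/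

theorem quad_nonneg {s1 s2 s3 s4 : Finset ℕ} {F : ℕ → ℕ → ℕ → ℕ → ℝ} (hF : ∀ x y z h, 0 ≤ F x y z h) :
    0 ≤ ∑ x ∈ s1, ∑ y ∈ s2, ∑ z ∈ s3, ∑ h ∈ s4, F x y z h :=
  sum_nonneg fun x _ => sum_nonneg fun y _ => sum_nonneg fun z _ => sum_nonneg fun h _ => hF x y z h

theorem quad_le {s1 s2 s3 s4 : Finset ℕ} {L : ℕ} (h1 : s1.card ≤ L) (h2 : s2.card ≤ L) (h3 : s3.card ≤ L)
    (h4 : s4.card ≤ L) {F : ℕ → ℕ → ℕ → ℕ → ℝ} {M : ℝ} (hM : 0 ≤ M) (hF : ∀ x y z h, F x y z h ≤ M) :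
    ∑ x ∈ s1, ∑ y ∈ s2, ∑ z ∈ s3, ∑ h ∈ s4, F x y z h ≤ (L : ℝ) ^ 4 * M := by
  have key : ∀ (s : Finset ℕ) (f : ℕ → ℝ) (K : ℝ), s.card ≤ L → 0 ≤ K → (∀ x, f x ≤ K) → ∑ x ∈ s, f x ≤ L * K := by
    intro s f K hs hK hf
    calc ∑ x ∈ s, f x ≤ ∑ _x ∈ s, K := sum_le_sum fun x _ => hf x
      _ = s.card * K := by rw [sum_const, nsmul_eq_mul]
      _ ≤ L * K := mul_le_mul_of_nonneg_right (by exact_mod_cast hs) hK
  have hL : (0 : ℝ) ≤ L := Nat.cast_nonneg L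
  have := key s1 (fun x => ∑ y ∈ s2, ∑ z ∈ s3, ∑ h ∈ s4, F x y z h) (L * (L * (L * M))) h1 (by positivity)
    fun x => key s2 _ _ h2 (by positivity) fun y => key s3 _ _ h3 (by positivity) fun z =>
      key s4 _ _ h4 hM fun h => hF x y z h
  calc _ ≤ _ := this
    _ = _ := by ring

theorem sum_fin_pred {L : ℕ} (g : ℕ → ℝ) : ∑ y : Fin (L - 1), g (y + 1) = ∑ y ∈ Ico 1 L, g y := by
  rw [Finset.sum_Ico_eq_sum_range, Finset.sum_range]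
  exact sum_congr rfl fun y _ => by rw [add_comm]

/-- the telescoping bound along a column -/
theorem column {L : ℕ} (U : ℕ → ℍ[ℝ]) (h0 : U 0 = 1) {k : ℕ} (hk : k ≤ L) :
    ‖U k - 1‖ ^ 2 ≤ L * ∑ h ∈ range L, ‖U (h + 1) - U h‖ ^ 2 := by
  have h1 : U k - 1 = ∑ h ∈ range k, (U (h + 1) - U h) := by
    rw [Finset.sum_range_sub, h0]
  have h2 : ‖U k - 1‖ ≤ ∑ h ∈ range k, ‖U (h + 1) - U h‖ := by
    rw [h1]
    exact norm_sum_le _ _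
  have h3 : (∑ h ∈ range k, ‖U (h + 1) - U h‖) ^ 2 ≤ k * ∑ h ∈ range k, ‖U (h + 1) - U h‖ ^ 2 := by
    have := sq_sum_le_card_mul_sum_sq (s := range k) (f := fun h => ‖U (h + 1) - U h‖)
    rwa [card_range] at this
  calc ‖U k - 1‖ ^ 2 ≤ (∑ h ∈ range k, ‖U (h + 1) - U h‖) ^ 2 := pow_le_pow_left₀ (norm_nonneg _) h2 2
    _ ≤ k * ∑ h ∈ range k, ‖U (h + 1) - U h‖ ^ 2 := h3
    _ ≤ L * ∑ h ∈ range L, ‖U (h + 1) - U h‖ ^ 2 := by
        apply mul_le_mul (by exact_mod_cast hk) _ (sum_nonneg fun _ _ => sq_nonneg _) (Nat.cast_nonneg _)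
        exact sum_le_sum_of_subset_of_nonneg (range_subset_range.2 hk) fun _ _ _ => sq_nonneg _

theorem ex1_val {R : Type} (L : ℕ) (u : I1 L → R) (w : R) (i : I1 L) :
    ex1 L u w i.1 (i.2.1 + 1) (i.2.2.1 + 1) (i.2.2.2 + 1) = u i := by
  unfold ex1
  rw [dif_pos ⟨⟨i.1.2, i.2.1.2, i.2.2.1.2, i.2.2.2.2⟩, Nat.le_add_left 1 _, Nat.le_add_left 1 _, Nat.le_add_left 1 _⟩]
  rfl

theorem ex2_val {R : Type} (L : ℕ) (u : I2 L → R) (w : R) (i : I2 L) :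
    ex2 L u w (i.1 + 1) i.2.1 (i.2.2.1 + 1) (i.2.2.2 + 1) = u i := by
  unfold ex2
  rw [dif_pos ⟨⟨i.1.2, i.2.1.2, i.2.2.1.2, i.2.2.2.2⟩, Nat.le_add_left 1 _, Nat.le_add_left 1 _, Nat.le_add_left 1 _⟩]
  rfl

theorem ex3_val {R : Type} (L : ℕ) (u : I3 L → R) (w : R) (i : I3 L) :
    ex3 L u w (i.1 + 1) (i.2.1 + 1) i.2.2.1 (i.2.2.2 + 1) = u i := by
  unfold ex3
  rw [dif_pos ⟨⟨i.1.2, i.2.1.2, i.2.2.1.2, i.2.2.2.2⟩, Nat.le_add_left 1 _, Nat.le_add_left 1 _, Nat.le_add_left 1 _⟩]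
  rfl

theorem ex1_bot {R : Type} (L : ℕ) (u : I1 L → R) (w : R) (x y z : ℕ) : ex1 L u w x y z 0 = w := by
  unfold ex1
  rw [dif_neg]
  rintro ⟨-, -, -, h⟩
  omega

theorem ex2_bot {R : Type} (L : ℕ) (u : I2 L → R) (w : R) (x y z : ℕ) : ex2 L u w x y z 0 = w := by
  unfold ex2
  rw [dif_neg]
  rintro ⟨-, -, -, h⟩
  omega

theorem ex3_bot {R : Type} (L : ℕ) (u : I3 L → R) (w : R) (x y z : ℕ) : ex3 L u w x y z 0 = w := by
  unfold ex3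
  rw [dif_neg]
  rintro ⟨-, -, -, h⟩
  omega

theorem vert1 (L : ℕ) (u : I1 L → SU) :
    ∑ i, ‖(u i : ℍ[ℝ]) - 1‖ ^ 2 ≤ (L : ℝ) ^ 2 * s14 L (fun x y z h =>
      ‖ex1 L (fun i => (u i : ℍ[ℝ])) 1 x y z (h + 1) - ex1 L (fun i => (u i : ℍ[ℝ])) 1 x y z h‖ ^ 2) := by
  set U := ex1 L (fun i => (u i : ℍ[ℝ])) 1 with hU
  have h1 : ∀ i : I1 L, ‖(u i : ℍ[ℝ]) - 1‖ ^ 2 ≤ L * ∑ h ∈ range L,
      ‖U i.1 (i.2.1 + 1) (i.2.2.1 + 1) (h + 1) - U i.1 (i.2.1 + 1) (i.2.2.1 + 1) h‖ ^ 2 := by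
    intro i
    have h2 := column (L := L) (fun h => U i.1 (i.2.1 + 1) (i.2.2.1 + 1) h) (ex1_bot L _ 1 _ _ _)
      (k := i.2.2.2 + 1) i.2.2.2.2
    simp only [hU, ex1_val] at h2 ⊢
    exact h2
  refine (sum_le_sum fun i _ => h1 i).trans (le_of_eq ?_)
  rw [Fintype.sum_prod_type]
  unfold s14
  rw [Finset.sum_range, mul_sum]
  refine sum_congr rfl fun x _ => ?_
  rw [Fintype.sum_prod_type, ← sum_fin_pred (L := L) (fun y => ∑ z ∈ Ico 1 L, ∑ h ∈ range L,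
    ‖U x y z (h + 1) - U x y z h‖ ^ 2), mul_sum]
  refine sum_congr rfl fun y _ => ?_
  rw [Fintype.sum_prod_type, ← sum_fin_pred (L := L) (fun z => ∑ h ∈ range L,
    ‖U x (y + 1) z (h + 1) - U x (y + 1) z h‖ ^ 2), mul_sum]
  refine sum_congr rfl fun z _ => ?_
  dsimp only
  rw [sum_const, card_univ, Fintype.card_fin, nsmul_eq_mul]
  ring

theorem vert2 (L : ℕ) (u : I2 L → SU) :
    ∑ i, ‖(u i : ℍ[ℝ]) - 1‖ ^ 2 ≤ (L : ℝ) ^ 2 * s24 L (fun x y z h =>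
      ‖ex2 L (fun i => (u i : ℍ[ℝ])) 1 x y z (h + 1) - ex2 L (fun i => (u i : ℍ[ℝ])) 1 x y z h‖ ^ 2) := by
  set U := ex2 L (fun i => (u i : ℍ[ℝ])) 1 with hU
  have h1 : ∀ i : I2 L, ‖(u i : ℍ[ℝ]) - 1‖ ^ 2 ≤ L * ∑ h ∈ range L,
      ‖U (i.1 + 1) i.2.1 (i.2.2.1 + 1) (h + 1) - U (i.1 + 1) i.2.1 (i.2.2.1 + 1) h‖ ^ 2 := by
    intro i
    have h2 := column (L := L) (fun h => U (i.1 + 1) i.2.1 (i.2.2.1 + 1) h) (ex2_bot L _ 1 _ _ _)
      (k := i.2.2.2 + 1) i.2.2.2.2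
    simp only [hU, ex2_val] at h2 ⊢
    exact h2
  refine (sum_le_sum fun i _ => h1 i).trans (le_of_eq ?_)
  rw [Fintype.sum_prod_type]
  unfold s24
  rw [← sum_fin_pred (L := L) (fun x => ∑ y ∈ range L, ∑ z ∈ Ico 1 L, ∑ h ∈ range L,
    ‖U x y z (h + 1) - U x y z h‖ ^ 2), mul_sum]
  refine sum_congr rfl fun x _ => ?_
  rw [Fintype.sum_prod_type, Finset.sum_range, mul_sum]
  refine sum_congr rfl fun y _ => ?_
  rw [Fintype.sum_prod_type, ← sum_fin_pred (L := L) (fun z => ∑ h ∈ range L,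
    ‖U (x + 1) y z (h + 1) - U (x + 1) y z h‖ ^ 2), mul_sum]
  refine sum_congr rfl fun z _ => ?_
  dsimp only
  rw [sum_const, card_univ, Fintype.card_fin, nsmul_eq_mul]
  ring

theorem vert3 (L : ℕ) (u : I3 L → SU) :
    ∑ i, ‖(u i : ℍ[ℝ]) - 1‖ ^ 2 ≤ (L : ℝ) ^ 2 * s34 L (fun x y z h =>
      ‖ex3 L (fun i => (u i : ℍ[ℝ])) 1 x y z (h + 1) - ex3 L (fun i => (u i : ℍ[ℝ])) 1 x y z h‖ ^ 2) := by
  set U := ex3 L (fun i => (u i : ℍ[ℝ])) 1 with hU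
  have h1 : ∀ i : I3 L, ‖(u i : ℍ[ℝ]) - 1‖ ^ 2 ≤ L * ∑ h ∈ range L,
      ‖U (i.1 + 1) (i.2.1 + 1) i.2.2.1 (h + 1) - U (i.1 + 1) (i.2.1 + 1) i.2.2.1 h‖ ^ 2 := by
    intro i
    have h2 := column (L := L) (fun h => U (i.1 + 1) (i.2.1 + 1) i.2.2.1 h) (ex3_bot L _ 1 _ _ _)
      (k := i.2.2.2 + 1) i.2.2.2.2
    simp only [hU, ex3_val] at h2 ⊢
    exact h2
  refine (sum_le_sum fun i _ => h1 i).trans (le_of_eq ?_)
  rw [Fintype.sum_prod_type]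
  unfold s34
  rw [← sum_fin_pred (L := L) (fun x => ∑ y ∈ Ico 1 L, ∑ z ∈ range L, ∑ h ∈ range L,
    ‖U x y z (h + 1) - U x y z h‖ ^ 2), mul_sum]
  refine sum_congr rfl fun x _ => ?_
  rw [Fintype.sum_prod_type, ← sum_fin_pred (L := L) (fun y => ∑ z ∈ range L, ∑ h ∈ range L,
    ‖U (x + 1) y z (h + 1) - U (x + 1) y z h‖ ^ 2), mul_sum]
  refine sum_congr rfl fun y _ => ?_
  rw [Fintype.sum_prod_type, Finset.sum_range, mul_sum]
  refine sum_congr rfl fun z _ => ?_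
  dsimp only
  rw [sum_const, card_univ, Fintype.card_fin, nsmul_eq_mul]
  ring

/-! ### the cardinality -/

theorem card_IH (L : ℕ) : Fintype.card (IH L) ≤ 3 * L ^ 4 := by
  rw [Fintype.card_sum, Fintype.card_sum]
  simp only [Fintype.card_prod, Fintype.card_fin]
  have h : L - 1 ≤ L := Nat.sub_le _ _
  have a1 : L * ((L - 1) * ((L - 1) * L)) ≤ L * (L * (L * L)) :=
    Nat.mul_le_mul_left _ (Nat.mul_le_mul h (Nat.mul_le_mul_right _ h))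
  have a2 : (L - 1) * (L * ((L - 1) * L)) ≤ L * (L * (L * L)) :=
    Nat.mul_le_mul h (Nat.mul_le_mul_left _ (Nat.mul_le_mul_right _ h))
  have a3 : (L - 1) * ((L - 1) * (L * L)) ≤ L * (L * (L * L)) :=
    Nat.mul_le_mul h (Nat.mul_le_mul_right _ h)
  calc _ ≤ L * (L * (L * L)) + (L * (L * (L * L)) + L * (L * (L * L))) := by omega
    _ = 3 * L ^ 4 := by ring

/-! ### continuity -/

section cont
variable {X : Type*} [TopologicalSpace X]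

theorem cont_quad {s1 s2 s3 s4 : Finset ℕ} {F : X → ℕ → ℕ → ℕ → ℕ → ℝ}
    (hF : ∀ x y z h, Continuous fun t => F t x y z h) :
    Continuous fun t => ∑ x ∈ s1, ∑ y ∈ s2, ∑ z ∈ s3, ∑ h ∈ s4, F t x y z h :=
  continuous_finsetSum _ fun x _ => continuous_finsetSum _ fun y _ => continuous_finsetSum _ fun z _ =>
    continuous_finsetSum _ fun h _ => hF x y z h

theorem cont_pe {a b c d : X → ℍ[ℝ]} (ha : Continuous a) (hb : Continuous b) (hc : Continuous c)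
    (hd : Continuous d) : Continuous fun t => pe (a t) (b t) (c t) (d t) := by
  unfold pe
  have h1 : Continuous fun t => a t * b t * star (c t) * star (d t) :=
    ((ha.mul hb).mul hc.star).mul hd.star
  have h2 : Continuous fun t => (a t * b t * star (c t) * star (d t)).re := Quaternion.continuous_re.comp h1
  exact continuous_const.sub (continuous_const.mul h2)

theorem cont_wil (L : ℕ) {U1 U2 U3 U4 : X → ℕ → ℕ → ℕ → ℕ → ℍ[ℝ]}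
    (h1 : ∀ x y z h, Continuous fun t => U1 t x y z h) (h2 : ∀ x y z h, Continuous fun t => U2 t x y z h)
    (h3 : ∀ x y z h, Continuous fun t => U3 t x y z h) (h4 : ∀ x y z h, Continuous fun t => U4 t x y z h) :
    Continuous fun t => wil L (U1 t) (U2 t) (U3 t) (U4 t) := by
  unfold wil s12 s13 s23 s14 s24 s34
  refine ((((Continuous.add (cont_quad fun x y z h => ?_) (cont_quad fun x y z h => ?_)).add
    (cont_quad fun x y z h => ?_)).add (cont_quad fun x y z h => ?_)).add (cont_quad fun x y z h => ?_)).add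
    (cont_quad fun x y z h => ?_)
  · exact cont_pe (h1 _ _ _ _) (h2 _ _ _ _) (h1 _ _ _ _) (h2 _ _ _ _)
  · exact cont_pe (h1 _ _ _ _) (h3 _ _ _ _) (h1 _ _ _ _) (h3 _ _ _ _)
  · exact cont_pe (h2 _ _ _ _) (h3 _ _ _ _) (h2 _ _ _ _) (h3 _ _ _ _)
  · exact cont_pe (h1 _ _ _ _) (h4 _ _ _ _) (h1 _ _ _ _) (h4 _ _ _ _)
  · exact cont_pe (h2 _ _ _ _) (h4 _ _ _ _) (h2 _ _ _ _) (h4 _ _ _ _)
  · exact cont_pe (h3 _ _ _ _) (h4 _ _ _ _) (h3 _ _ _ _) (h4 _ _ _ _)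

/-- the unit `k` -/
def kk : ℍ[ℝ] := ⟨0, 0, 0, 1⟩

theorem bg_eq (θ x : ℝ) : bg θ x = Real.cos (θ * x / 2) • (1 : ℍ[ℝ]) + Real.sin (θ * x / 2) • kk := by
  unfold bg kk
  ext <;> simp

theorem cont_bg {f : X → ℝ} (hf : Continuous f) (x : ℝ) : Continuous fun t => bg (f t) x := by
  simp only [bg_eq]
  have h1 : Continuous fun t => Real.cos (f t * x / 2) := by fun_prop
  have h2 : Continuous fun t => Real.sin (f t * x / 2) := by fun_prop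
  exact (h1.smul continuous_const).add (h2.smul continuous_const)

theorem cont_ex1 (L : ℕ) {u : X → I1 L → ℍ[ℝ]} (hu : ∀ i, Continuous fun t => u t i) (x y z h : ℕ) :
    Continuous fun t => ex1 L (u t) 1 x y z h := by
  unfold ex1
  split_ifs
  · exact hu _
  · exact continuous_const

theorem cont_ex2 (L : ℕ) {u : X → I2 L → ℍ[ℝ]} (hu : ∀ i, Continuous fun t => u t i) (x y z h : ℕ) :
    Continuous fun t => ex2 L (u t) 1 x y z h := by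
  unfold ex2
  split_ifs
  · exact hu _
  · exact continuous_const

theorem cont_ex3 (L : ℕ) {u : X → I3 L → ℍ[ℝ]} (hu : ∀ i, Continuous fun t => u t i) (x y z h : ℕ) :
    Continuous fun t => ex3 L (u t) 1 x y z h := by
  unfold ex3
  split_ifs
  · exact hu _
  · exact continuous_const

end cont

theorem cont_en (L : ℕ) : Continuous (Function.uncurry (en L)) := by
  have hσ : ∀ l : IH L, Continuous fun p : ℝ × (IH L → SU) => ((p.2 l : SU) : ℍ[ℝ]) := fun l =>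
    continuous_subtype_val.comp ((continuous_apply l).comp continuous_snd)
  have hbg : ∀ x : ℝ, Continuous fun p : ℝ × (IH L → SU) => bg p.1 x := fun x => cont_bg continuous_fst x
  have key : Continuous fun p : ℝ × (IH L → SU) => en L p.1 p.2 := by
    unfold en
    refine cont_wil L (fun x y z h => ?_) (fun x y z h => ?_) (fun x y z h => ?_) (fun x y z h => ?_)
    · exact cont_ex1 L (fun i => hσ _) x y z h
    · exact ((hbg _).mul (cont_ex2 L (fun i => hσ _) x y z h)).mul (hbg _)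
    · exact cont_ex3 L (fun i => hσ _) x y z h
    · exact continuous_const
  exact key

/-- **Task AF-EB.** -/
theorem teb : S_EB := by
  intro L hL
  have hL0 : (0 : ℝ) ≤ L := Nat.cast_nonneg L
  have hL1 : (1 : ℝ) ≤ L := by exact_mod_cast (by omega : 1 ≤ L)
  have hcard : (Fintype.card (IH L) : ℝ) ≤ 3 * (L : ℝ) ^ 4 := by exact_mod_cast card_IH L
  refine ⟨fun σ => ?_, cont_en L, hcard⟩
  set U1 := ex1 L (fun i => (σ (Sum.inl i) : ℍ[ℝ])) 1 with hU1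
  set U2 := ex2 L (fun i => (σ (Sum.inr (Sum.inl i)) : ℍ[ℝ])) 1 with hU2
  set U3 := ex3 L (fun i => (σ (Sum.inr (Sum.inr i)) : ℍ[ℝ])) 1 with hU3
  have n1 : ∀ x y z h, ‖U1 x y z h‖ = 1 := fun x y z h => ex1_norm L (fun i => σ (Sum.inl i)) x y z h
  have n2 : ∀ x y z h, ‖U2 x y z h‖ = 1 := fun x y z h => ex2_norm L (fun i => σ (Sum.inr (Sum.inl i))) x y z h
  have n3 : ∀ x y z h, ‖U3 x y z h‖ = 1 := fun x y z h => ex3_norm L (fun i => σ (Sum.inr (Sum.inr i))) x y z h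
  have m1 : ∀ x y z h, ‖U1 x y z h - 1‖ ≤ sz σ := ex1_sz σ
  have m2 : ∀ x y z h, ‖U2 x y z h - 1‖ ≤ sz σ := ex2_sz σ
  have m3 : ∀ x y z h, ‖U3 x y z h - 1‖ ≤ sz σ := ex3_sz σ
  have m4 : ‖(1 : ℍ[ℝ]) - 1‖ ≤ sz σ := by rw [sub_self, norm_zero]; exact sz_nonneg σ
  have n4 : ‖(1 : ℍ[ℝ])‖ = 1 := norm_one
  have hen : en L 0 σ = wil L U1 U2 U3 (fun _ _ _ _ => 1) := en_zero L σ
  have p12 : 0 ≤ s12 L (fun x y z h => pe (U1 x y z h) (U2 (x + 1) y z h) (U1 x (y + 1) z h) (U2 x y z h)) :=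
    quad_nonneg fun x y z h => pe_nonneg (n1 _ _ _ _) (n2 _ _ _ _) (n1 _ _ _ _) (n2 _ _ _ _)
  have p13 : 0 ≤ s13 L (fun x y z h => pe (U1 x y z h) (U3 (x + 1) y z h) (U1 x y (z + 1) h) (U3 x y z h)) :=
    quad_nonneg fun x y z h => pe_nonneg (n1 _ _ _ _) (n3 _ _ _ _) (n1 _ _ _ _) (n3 _ _ _ _)
  have p23 : 0 ≤ s23 L (fun x y z h => pe (U2 x y z h) (U3 x (y + 1) z h) (U2 x y (z + 1) h) (U3 x y z h)) :=
    quad_nonneg fun x y z h => pe_nonneg (n2 _ _ _ _) (n3 _ _ _ _) (n2 _ _ _ _) (n3 _ _ _ _)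
  have p14 : 0 ≤ s14 L (fun x y z h => pe (U1 x y z h) 1 (U1 x y z (h + 1)) 1) :=
    quad_nonneg fun x y z h => pe_nonneg (n1 _ _ _ _) n4 (n1 _ _ _ _) n4
  have p24 : 0 ≤ s24 L (fun x y z h => pe (U2 x y z h) 1 (U2 x y z (h + 1)) 1) :=
    quad_nonneg fun x y z h => pe_nonneg (n2 _ _ _ _) n4 (n2 _ _ _ _) n4
  have p34 : 0 ≤ s34 L (fun x y z h => pe (U3 x y z h) 1 (U3 x y z (h + 1)) 1) :=
    quad_nonneg fun x y z h => pe_nonneg (n3 _ _ _ _) n4 (n3 _ _ _ _) n4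
  have hwil : en L 0 σ =
      s12 L (fun x y z h => pe (U1 x y z h) (U2 (x + 1) y z h) (U1 x (y + 1) z h) (U2 x y z h)) +
      s13 L (fun x y z h => pe (U1 x y z h) (U3 (x + 1) y z h) (U1 x y (z + 1) h) (U3 x y z h)) +
      s23 L (fun x y z h => pe (U2 x y z h) (U3 x (y + 1) z h) (U2 x y (z + 1) h) (U3 x y z h)) +
      s14 L (fun x y z h => pe (U1 x y z h) 1 (U1 x y z (h + 1)) 1) +
      s24 L (fun x y z h => pe (U2 x y z h) 1 (U2 x y z (h + 1)) 1) +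
      s34 L (fun x y z h => pe (U3 x y z h) 1 (U3 x y z (h + 1)) 1) := by
    rw [hen]
    rfl
  have hc1 : (Finset.range L).card ≤ L := by rw [card_range]
  have hc2 : (Finset.Ico 1 L).card ≤ L := by rw [Nat.card_Ico]; omega
  have hc3 : (Finset.Icc 1 L).card ≤ L := by rw [Nat.card_Icc]; omega
  have hM : 0 ≤ 16 * sz σ ^ 2 := by positivity
  refine ⟨?_, ?_, ?_, ?_⟩
  · rw [hwil]
    linarith
  · -- coercivity
    have v1 := vert1 L (fun i => σ (Sum.inl i))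
    have v2 := vert2 L (fun i => σ (Sum.inr (Sum.inl i)))
    have v3 := vert3 L (fun i => σ (Sum.inr (Sum.inr i)))
    have w1 : s14 L (fun x y z h => ‖U1 x y z (h + 1) - U1 x y z h‖ ^ 2) =
        s14 L (fun x y z h => pe (U1 x y z h) 1 (U1 x y z (h + 1)) 1) := by
      congr 1
      funext x y z h
      exact (pe_vert (n1 _ _ _ _) (n1 _ _ _ _)).symm
    have w2 : s24 L (fun x y z h => ‖U2 x y z (h + 1) - U2 x y z h‖ ^ 2) =
        s24 L (fun x y z h => pe (U2 x y z h) 1 (U2 x y z (h + 1)) 1) := by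
      congr 1
      funext x y z h
      exact (pe_vert (n2 _ _ _ _) (n2 _ _ _ _)).symm
    have w3 : s34 L (fun x y z h => ‖U3 x y z (h + 1) - U3 x y z h‖ ^ 2) =
        s34 L (fun x y z h => pe (U3 x y z h) 1 (U3 x y z (h + 1)) 1) := by
      congr 1
      funext x y z h
      exact (pe_vert (n3 _ _ _ _) (n3 _ _ _ _)).symm
    rw [← hU1, w1] at v1
    rw [← hU2, w2] at v2
    rw [← hU3, w3] at v3
    have hsum : ∑ l, ‖(σ l : ℍ[ℝ]) - 1‖ ^ 2 ≤ (L : ℝ) ^ 2 * en L 0 σ := by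
      rw [Fintype.sum_sum_type, Fintype.sum_sum_type, hwil]
      have hL2 : 0 ≤ (L : ℝ) ^ 2 := by positivity
      have q1 := mul_nonneg hL2 p12
      have q2 := mul_nonneg hL2 p13
      have q3 := mul_nonneg hL2 p23
      simp only [mul_add]
      linarith
    have hcs : sz σ ^ 2 ≤ Fintype.card (IH L) * ∑ l, ‖(σ l : ℍ[ℝ]) - 1‖ ^ 2 := by
      have := sq_sum_le_card_mul_sum_sq (s := (univ : Finset (IH L))) (f := fun l => ‖(σ l : ℍ[ℝ]) - 1‖)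
      rwa [card_univ] at this
    have hs0 : 0 ≤ ∑ l, ‖(σ l : ℍ[ℝ]) - 1‖ ^ 2 := sum_nonneg fun _ _ => sq_nonneg _
    calc sz σ ^ 2 ≤ Fintype.card (IH L) * ∑ l, ‖(σ l : ℍ[ℝ]) - 1‖ ^ 2 := hcs
      _ ≤ (3 * (L : ℝ) ^ 4) * ((L : ℝ) ^ 2 * en L 0 σ) := mul_le_mul hcard hsum hs0 (by positivity)
      _ = 3 * (L : ℝ) ^ 6 * en L 0 σ := by ring
  · -- upper bound
    have b12 : s12 L (fun x y z h => pe (U1 x y z h) (U2 (x + 1) y z h) (U1 x (y + 1) z h) (U2 x y z h)) ≤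
        (L : ℝ) ^ 4 * (16 * sz σ ^ 2) := quad_le hc1 hc1 hc2 hc3 hM fun x y z h =>
      pe_le (n1 _ _ _ _) (n2 _ _ _ _) (n1 _ _ _ _) (n2 _ _ _ _) (m1 _ _ _ _) (m2 _ _ _ _) (m1 _ _ _ _) (m2 _ _ _ _)
    have b13 : s13 L (fun x y z h => pe (U1 x y z h) (U3 (x + 1) y z h) (U1 x y (z + 1) h) (U3 x y z h)) ≤
        (L : ℝ) ^ 4 * (16 * sz σ ^ 2) := quad_le hc1 hc2 hc1 hc3 hM fun x y z h =>
      pe_le (n1 _ _ _ _) (n3 _ _ _ _) (n1 _ _ _ _) (n3 _ _ _ _) (m1 _ _ _ _) (m3 _ _ _ _) (m1 _ _ _ _) (m3 _ _ _ _)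
    have b23 : s23 L (fun x y z h => pe (U2 x y z h) (U3 x (y + 1) z h) (U2 x y (z + 1) h) (U3 x y z h)) ≤
        (L : ℝ) ^ 4 * (16 * sz σ ^ 2) := quad_le hc2 hc1 hc1 hc3 hM fun x y z h =>
      pe_le (n2 _ _ _ _) (n3 _ _ _ _) (n2 _ _ _ _) (n3 _ _ _ _) (m2 _ _ _ _) (m3 _ _ _ _) (m2 _ _ _ _) (m3 _ _ _ _)
    have b14 : s14 L (fun x y z h => pe (U1 x y z h) 1 (U1 x y z (h + 1)) 1) ≤
        (L : ℝ) ^ 4 * (16 * sz σ ^ 2) := quad_le hc1 hc2 hc2 hc1 hM fun x y z h =>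
      pe_le (n1 _ _ _ _) n4 (n1 _ _ _ _) n4 (m1 _ _ _ _) m4 (m1 _ _ _ _) m4
    have b24 : s24 L (fun x y z h => pe (U2 x y z h) 1 (U2 x y z (h + 1)) 1) ≤
        (L : ℝ) ^ 4 * (16 * sz σ ^ 2) := quad_le hc2 hc1 hc2 hc1 hM fun x y z h =>
      pe_le (n2 _ _ _ _) n4 (n2 _ _ _ _) n4 (m2 _ _ _ _) m4 (m2 _ _ _ _) m4
    have b34 : s34 L (fun x y z h => pe (U3 x y z h) 1 (U3 x y z (h + 1)) 1) ≤
        (L : ℝ) ^ 4 * (16 * sz σ ^ 2) := quad_le hc2 hc2 hc1 hc1 hM fun x y z h =>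
      pe_le (n3 _ _ _ _) n4 (n3 _ _ _ _) n4 (m3 _ _ _ _) m4 (m3 _ _ _ _) m4
    have hq : 0 ≤ (L : ℝ) ^ 4 * sz σ ^ 2 := by positivity
    rw [hwil]
    linarith
  · -- trivial bound
    have h2 : ∀ l : IH L, ‖(σ l : ℍ[ℝ]) - 1‖ ≤ 2 := by
      intro l
      refine (norm_sub_le _ _).trans ?_
      rw [mem_sphere_zero_iff_norm.1 (σ l).2, norm_one]
      norm_num
    calc sz σ ≤ ∑ _l : IH L, (2 : ℝ) := sum_le_sum fun l _ => h2 l
      _ = Fintype.card (IH L) * 2 := by rw [sum_const, card_univ, nsmul_eq_mul]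
      _ ≤ (3 * (L : ℝ) ^ 4) * 2 := mul_le_mul_of_nonneg_right hcard (by norm_num)
      _ = 6 * (L : ℝ) ^ 4 := by ring

end Pool.Agent.H181.AF
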